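import Mathlib
import Pool.Agent.Helper58.SphereGraphDefs
import Pool.Agent.Helper58.CircD

set_option autoImplicit false

namespace Pool.Agent.Results.MP_d78ec8_co.NotIsomorphic

open Pool.Agent.Helper58.SphereGraph

/-- For every `d ≥ 2` the group of homeomorphisms of the `d`-sphere and the automorphism group of
the `d`-sphere graph are not isomorphic: there is no bijection between them which respects the
composition of maps. -/
theorem result : ∀ d : ℕ, 2 ≤ d →
    ¬ ∃ Ψ : (sph d ≃ₜ sph d) → (sphereGraph d ≃g sphereGraph d),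
      Function.Bijective Ψ ∧ ∀ g h : sph d ≃ₜ sph d, Ψ (g.trans h) = (Ψ g).trans (Ψ h) := by
  rintro d hd ⟨Ψ, hΨ, hmul⟩
  apply not_isomorphic d hd
  exact ⟨MulEquiv.ofBijective (MonoidHom.mk' Ψ (fun g h => hmul h g)) hΨ⟩

end Pool.Agent.Results.MP_d78ec8_co.NotIsomorphic
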